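import Mathlib

/-!
# Types: trees in heap order with permuted leaves

`tRel b s m π u v` is the oriented edge relation on `{0, ..., s-1}`: the parent of `u > 0` is
`(u-1)/b`, and the leaf `s-2m+a` is joined to the leaf `s-m+π_j(a)` for `j < b`, `a < m`.
-/

namespace Pool.Agent.SRC

/-- Oriented edges: child to parent, and first half of the leaves to the second half. -/
def tRel (b s m : ℕ) (π : Fin b → Equiv.Perm (Fin m)) (u v : ℕ) : Prop :=
  (0 < u ∧ v = (u - 1) / b) ∨ ∃ (j : Fin b) (a : Fin m), u = s - 2 * m + a ∧ v = s - m + (π j a : ℕ)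

/-- Adjacency of the type graph. -/
def tAdj (b s m : ℕ) (π : Fin b → Equiv.Perm (Fin m)) (u v : ℕ) : Prop :=
  u ≠ v ∧ (tRel b s m π u v ∨ tRel b s m π v u)

/-- The type `π` embeds with root at `x` in the host given by the neighbour lists `N`. -/
def Emb (b s m : ℕ) {M D : ℕ} (N : Fin M → Fin D → Fin M) (x : Fin M)
    (π : Fin b → Equiv.Perm (Fin m)) : Prop :=
  ∃ f : ℕ → Fin M, (∀ u < s, ∀ v < s, f u = f v → u = v) ∧ f 0 = x ∧
    ∀ u < s, ∀ v < s, tAdj b s m π u v → ∃ c, f v = N (f u) c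

lemma tAdj_symm {b s m : ℕ} {π : Fin b → Equiv.Perm (Fin m)} {u v : ℕ}
    (h : tAdj b s m π u v) : tAdj b s m π v u := ⟨h.1.symm, h.2.symm⟩

lemma parent_lt {b v : ℕ} (_hb : 2 ≤ b) (hv : 0 < v) : (v - 1) / b < v := by
  calc (v - 1) / b ≤ v - 1 := Nat.div_le_self _ _
    _ < v := by omega

lemma tAdj_parent {b s m : ℕ} (hb : 2 ≤ b) {π : Fin b → Equiv.Perm (Fin m)} {v : ℕ}
    (hv : 0 < v) : tAdj b s m π ((v - 1) / b) v :=
  ⟨(parent_lt hb hv).ne, Or.inr (Or.inl ⟨hv, rfl⟩)⟩

lemma tAdj_leaf {b s m : ℕ} (hms : 2 * m ≤ s) {π : Fin b → Equiv.Perm (Fin m)}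
    (j : Fin b) (a : Fin m) : tAdj b s m π (s - 2 * m + a) (s - m + (π j a : ℕ)) := by
  refine ⟨?_, Or.inl (Or.inr ⟨j, a, rfl, rfl⟩)⟩
  have := a.2
  omega

/-- Number of types which embed at a given root. -/
theorem card_emb_le {b s m M D : ℕ} (hb : 2 ≤ b) (hms : 2 * m ≤ s) (hD : 1 ≤ D)
    (N : Fin M → Fin D → Fin M) (x : Fin M) :
    Nat.card {π : Fin b → Equiv.Perm (Fin m) // Emb b s m N x π} ≤ D ^ s * D ^ (b * m) := by
  classical
  -- the codes
  have key : ∀ π : {π : Fin b → Equiv.Perm (Fin m) // Emb b s m N x π},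
      ∃ (f : ℕ → Fin M) (c : Fin s → Fin D) (c' : Fin b → Fin m → Fin D),
        (∀ u < s, ∀ v < s, f u = f v → u = v) ∧ f 0 = x ∧
        (∀ v : Fin s, 0 < (v : ℕ) → f v = N (f (((v : ℕ) - 1) / b)) (c v)) ∧
        (∀ j a, f (s - m + (π.1 j a : ℕ)) = N (f (s - 2 * m + a)) (c' j a)) := by
    rintro ⟨π, f, hinj, h0, hadj⟩
    have h1 : ∀ v : Fin s, ∃ c : Fin D, 0 < (v : ℕ) → f v = N (f (((v : ℕ) - 1) / b)) c := by
      intro v
      by_cases hv : 0 < (v : ℕ)
      · obtain ⟨c, hc⟩ := hadj _ ((parent_lt hb hv).trans v.2) _ v.2 (tAdj_parent hb hv)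
        exact ⟨c, fun _ => hc⟩
      · exact ⟨⟨0, hD⟩, fun h => absurd h hv⟩
    have h2 : ∀ (j : Fin b) (a : Fin m), ∃ c : Fin D,
        f (s - m + (π j a : ℕ)) = N (f (s - 2 * m + a)) c := by
      intro j a
      have ha := a.2
      have hpa := (π j a).2
      exact hadj _ (by omega) _ (by omega) (tAdj_leaf hms j a)
    choose c hc using h1
    choose c' hc' using h2
    exact ⟨f, c, c', hinj, h0, hc, hc'⟩
  choose f c c' hinj h0 hc hc' using key
  have hI : Function.Injective (fun π : {π : Fin b → Equiv.Perm (Fin m) // Emb b s m N x π} =>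
      (c π, c' π)) := by
    intro π ρ h
    simp only [Prod.mk.injEq] at h
    obtain ⟨h1, h2⟩ := h
    have hf : ∀ v, v < s → f π v = f ρ v := by
      intro v
      induction v using Nat.strong_induction_on with
      | _ v ih =>
        intro hv
        rcases Nat.eq_zero_or_pos v with rfl | hpos
        · rw [h0, h0]
        · have e1 := hc π ⟨v, hv⟩ hpos
          have e2 := hc ρ ⟨v, hv⟩ hpos
          simp only at e1 e2
          rw [e1, e2, h1, ih _ (parent_lt hb hpos) ((parent_lt hb hpos).trans hv)]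
    apply Subtype.ext
    funext j
    apply Equiv.ext
    intro a
    have ha := a.2
    have hpa := (π.1 j a).2
    have hra := (ρ.1 j a).2
    have e1 := hc' π j a
    have e2 := hc' ρ j a
    rw [hf (s - 2 * m + a) (by omega), h2, ← e2, ← hf _ (by omega)] at e1
    have := hinj π _ (by omega) _ (by omega) e1
    apply Fin.ext
    omega
  calc Nat.card {π : Fin b → Equiv.Perm (Fin m) // Emb b s m N x π}
      ≤ Nat.card ((Fin s → Fin D) × (Fin b → Fin m → Fin D)) :=
        Nat.card_le_card_of_injective _ hI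
    _ = D ^ s * D ^ (b * m) := by
        simp [Nat.card_eq_fintype_card, pow_mul, pow_right_comm]

end Pool.Agent.SRC
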