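import Mathlib

/-!
# Random selection of types
-/

namespace Pool.Agent.SRC

open Finset

/-- If every bad set is small then some selection of `k` elements meets every bad set at most
`l` times. -/
theorem exists_selection {T ι : Type*} [Fintype T] [DecidableEq T] [Fintype ι] [DecidableEq ι]
    (Bad : ι → Finset T) (P k l : ℕ) (hBad : ∀ i, (Bad i).card ≤ P)
    (h : Fintype.card ι * (k * P) ^ (l + 1) < (Fintype.card T) ^ (l + 1)) :
    ∃ ψ : Fin k → T, ∀ i, (univ.filter (fun q => ψ q ∈ Bad i)).card ≤ l := by
  classical
  by_contra hcon
  push Not at hcon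
  have hTpos : 0 < Fintype.card T := by
    by_contra h0
    have : Fintype.card T = 0 := by omega
    rw [this] at h
    simp at h
  by_cases hkl : k < l + 1
  · -- no selection can be bad
    have hne : Nonempty T := Fintype.card_pos_iff.mp hTpos
    obtain ⟨i, hi⟩ := hcon (fun _ => Classical.arbitrary T)
    have : (univ.filter (fun q : Fin k => (fun _ => Classical.arbitrary T) q ∈ Bad i)).card ≤ k := by
      calc _ ≤ (univ : Finset (Fin k)).card := card_filter_le _ _
        _ = k := by simp
    have h3 : l < k := lt_of_lt_of_le hi this
    omega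
  · push Not at hkl
    -- cover of all selections
    let E : ι → Finset (Fin k) → Finset (Fin k → T) := fun i S =>
      Fintype.piFinset (fun q => if q ∈ S then Bad i else univ)
    have hcover : (univ : Finset (Fin k → T)) ⊆
        univ.biUnion (fun i : ι => (powersetCard (l + 1) univ).biUnion (fun S => E i S)) := by
      intro ψ _
      obtain ⟨i, hi⟩ := hcon ψ
      obtain ⟨S, hS1, hS2⟩ := exists_subset_card_eq (show l + 1 ≤
        (univ.filter (fun q => ψ q ∈ Bad i)).card from hi)
      simp only [mem_biUnion, mem_univ, true_and, mem_powersetCard]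
      refine ⟨i, S, ⟨subset_univ _, hS2⟩, ?_⟩
      rw [Fintype.mem_piFinset]
      intro q
      by_cases hq : q ∈ S
      · simp only [hq, if_true]
        exact (mem_filter.mp (hS1 hq)).2
      · simp [hq]
    have hE : ∀ i, ∀ S ∈ powersetCard (l + 1) (univ : Finset (Fin k)),
        (E i S).card ≤ P ^ (l + 1) * (Fintype.card T) ^ (k - (l + 1)) := by
      intro i S hS
      rw [mem_powersetCard] at hS
      simp only [E, Fintype.card_piFinset]
      have : ∀ q : Fin k, (if q ∈ S then Bad i else (univ : Finset T)).card =
          if q ∈ S then (Bad i).card else Fintype.card T := by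
        intro q
        split_ifs <;> simp
      simp_rw [this]
      rw [prod_ite]
      simp only [prod_const]
      have h1 : (univ.filter (fun x => x ∈ S)).card = l + 1 := by
        rw [← hS.2]; congr 1; ext; simp
      have h2 : (univ.filter (fun x : Fin k => x ∉ S)).card = k - (l + 1) := by
        have := card_filter_add_card_filter_not (s := (univ : Finset (Fin k))) (fun x => x ∈ S)
        rw [h1] at this
        simp at this
        omega
      rw [h1, h2]
      exact Nat.mul_le_mul_right _ (Nat.pow_le_pow_left (hBad i) _)
    have h1 : (Fintype.card T) ^ k ≤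
        Fintype.card ι * (k ^ (l + 1) * (P ^ (l + 1) * (Fintype.card T) ^ (k - (l + 1)))) := by
      calc (Fintype.card T) ^ k = (univ : Finset (Fin k → T)).card := by simp
        _ ≤ _ := card_le_card hcover
        _ ≤ ∑ i : ι, ((powersetCard (l + 1) univ).biUnion (fun S => E i S)).card := card_biUnion_le
        _ ≤ ∑ _i : ι, (k ^ (l + 1) * (P ^ (l + 1) * (Fintype.card T) ^ (k - (l + 1)))) := by
            refine sum_le_sum fun i _ => ?_
            calc _ ≤ ∑ S ∈ powersetCard (l + 1) univ, (E i S).card := card_biUnion_le
              _ ≤ ∑ _S ∈ powersetCard (l + 1) (univ : Finset (Fin k)),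
                    (P ^ (l + 1) * (Fintype.card T) ^ (k - (l + 1))) := sum_le_sum (hE i)
              _ = k.choose (l + 1) * (P ^ (l + 1) * (Fintype.card T) ^ (k - (l + 1))) := by
                    simp
              _ ≤ _ := Nat.mul_le_mul_right _ (Nat.choose_le_pow _ _)
        _ = _ := by simp
    have h2 : Fintype.card ι * (k ^ (l + 1) * (P ^ (l + 1) * (Fintype.card T) ^ (k - (l + 1)))) <
        (Fintype.card T) ^ k := by
      calc _ = (Fintype.card ι * (k * P) ^ (l + 1)) * (Fintype.card T) ^ (k - (l + 1)) := by
            rw [mul_pow]; ring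
        _ < (Fintype.card T) ^ (l + 1) * (Fintype.card T) ^ (k - (l + 1)) :=
            Nat.mul_lt_mul_of_pos_right h (pow_pos hTpos _)
        _ = (Fintype.card T) ^ k := by rw [← pow_add]; congr 1; omega
    omega

end Pool.Agent.SRC
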