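import Mathlib
import Pool.Agent.SRC.A

/-!
# Balls in the host and the reduction to neighbour lists
-/

namespace Pool.Agent.SRC

open Finset

section
variable {V : Type*} [Fintype V] [DecidableEq V]

/-- Ball of radius `r` around `x`, where `nb y` is the set of neighbours of `y`. -/
def ball (nb : V → Finset V) (x : V) : ℕ → Finset V
  | 0 => {x}
  | r + 1 => ball nb x r ∪ (ball nb x r).biUnion nb

lemma ball_succ_le (nb : V → Finset V) (x : V) (r : ℕ) : ball nb x r ⊆ ball nb x (r + 1) :=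
  subset_union_left

lemma ball_mono (nb : V → Finset V) (x : V) {r t : ℕ} (h : r ≤ t) :
    ball nb x r ⊆ ball nb x t := by
  induction h with
  | refl => exact Subset.refl _
  | step _ ih => exact ih.trans (ball_succ_le nb x _)

lemma mem_ball_succ (nb : V → Finset V) {x y z : V} {r : ℕ} (hy : y ∈ ball nb x r)
    (hz : z ∈ nb y) : z ∈ ball nb x (r + 1) :=
  mem_union_right _ (mem_biUnion.mpr ⟨y, hy, hz⟩)

lemma card_ball_le (nb : V → Finset V) (x : V) {D : ℕ} (hD : ∀ y, (nb y).card ≤ D) (r : ℕ) :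
    (ball nb x r).card ≤ (D + 1) ^ r := by
  induction r with
  | zero => simp [ball]
  | succ r ih =>
    calc (ball nb x (r + 1)).card ≤ (ball nb x r).card + ((ball nb x r).biUnion nb).card :=
          card_union_le _ _
      _ ≤ (ball nb x r).card + (ball nb x r).card * D := by
          gcongr
          exact card_biUnion_le_card_mul _ _ _ (fun y _ => hD y)
      _ = (ball nb x r).card * (D + 1) := by ring
      _ ≤ (D + 1) ^ r * (D + 1) := by gcongr
      _ = (D + 1) ^ (r + 1) := by rw [pow_succ]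

/-- A copy of the type `π` with root at `x`. -/
def CopyAt (b s m : ℕ) (nb : V → Finset V) (x : V) (π : Fin b → Equiv.Perm (Fin m)) : Prop :=
  ∃ f : ℕ → V, (∀ u < s, ∀ v < s, f u = f v → u = v) ∧ f 0 = x ∧
    ∀ u < s, ∀ v < s, tAdj b s m π u v → f v ∈ nb (f u)

lemma copy_mem_ball {b s m : ℕ} (hb : 2 ≤ b) {nb : V → Finset V} {x : V}
    {π : Fin b → Equiv.Perm (Fin m)} {f : ℕ → V} (h0 : f 0 = x)
    (hadj : ∀ u < s, ∀ v < s, tAdj b s m π u v → f v ∈ nb (f u)) :
    ∀ r v, v < s → v < b ^ r → f v ∈ ball nb x r := by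
  intro r
  induction r with
  | zero =>
    intro v _ hv
    have : v = 0 := by simpa using hv
    subst this
    simp [ball, h0]
  | succ r ih =>
    intro v hvs hv
    rcases Nat.eq_zero_or_pos v with rfl | hpos
    · exact ball_mono nb x (Nat.zero_le _) (by simp [ball, h0])
    · have hp : (v - 1) / b < b ^ r := by
        rw [Nat.div_lt_iff_lt_mul (by omega)]
        have : b ^ (r + 1) = b ^ r * b := pow_succ _ _
        omega
      exact mem_ball_succ nb (ih _ ((parent_lt hb hpos).trans hvs) hp)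
        (hadj _ ((parent_lt hb hpos).trans hvs) _ hvs (tAdj_parent hb hpos))

lemma exists_list {D : ℕ} (hD : 1 ≤ D) (S : Finset V) (y : V) (hS : S.card ≤ D) :
    ∃ g : Fin D → V, ∀ z ∈ S, ∃ c, g c = z := by
  classical
  have e := S.equivFin
  refine ⟨fun c => if h : (c : ℕ) < S.card then ((e.symm ⟨c, h⟩ : S) : V) else y, ?_⟩
  intro z hz
  refine ⟨⟨(e ⟨z, hz⟩ : ℕ), lt_of_lt_of_le (e ⟨z, hz⟩).2 hS⟩, ?_⟩
  simp

/-- Local structure of a host at a root: one neighbour list for all types. -/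
theorem exists_local {b s m M D h : ℕ} (hb : 2 ≤ b) (hD : 1 ≤ D) (hM : (D + 1) ^ h ≤ M)
    (hs : s ≤ b ^ h) (nb : V → Finset V) (hnb : ∀ y, (nb y).card ≤ D) (x : V) :
    ∃ (N : Fin M → Fin D → Fin M) (x₀ : Fin M), ∀ π : Fin b → Equiv.Perm (Fin m),
      CopyAt b s m nb x π → Emb b s m N x₀ π := by
  classical
  have hMpos : 0 < M := lt_of_lt_of_le (pow_pos (by omega) _) hM
  have hcard : (ball nb x h).card ≤ M := (card_ball_le nb x hnb h).trans hM
  -- injection of the ball
  have hinj : ∃ e : V → Fin M, Set.InjOn e (ball nb x h : Finset V) := by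
    have eqv := (ball nb x h).equivFin
    refine ⟨fun y => if hy : y ∈ ball nb x h then ⟨(eqv ⟨y, hy⟩ : ℕ),
      lt_of_lt_of_le (eqv ⟨y, hy⟩).2 hcard⟩ else ⟨0, hMpos⟩, ?_⟩
    intro y hy z hz hyz
    have hy' : y ∈ ball nb x h := hy
    have hz' : z ∈ ball nb x h := hz
    simp only [hy', hz', dif_pos, Fin.mk.injEq] at hyz
    have := eqv.injective (Fin.ext hyz)
    simpa using this
  obtain ⟨e, he⟩ := hinj
  choose g hg using fun y => exists_list hD (nb y) y (hnb y)
  -- left inverse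
  have hinv : ∃ r : Fin M → V, ∀ y ∈ ball nb x h, r (e y) = y := by
    refine ⟨fun i => if hi : ∃ y ∈ ball nb x h, e y = i then hi.choose else x, ?_⟩
    intro y hy
    have hi : ∃ z ∈ ball nb x h, e z = e y := ⟨y, hy, rfl⟩
    simp only [hi, dif_pos]
    exact he hi.choose_spec.1 hy hi.choose_spec.2
  obtain ⟨r, hr⟩ := hinv
  refine ⟨fun i c => e (g (r i) c), e x, ?_⟩
  rintro π ⟨f, hfinj, hf0, hfadj⟩
  have hmem : ∀ v < s, f v ∈ ball nb x h := fun v hv =>
    copy_mem_ball hb hf0 hfadj h v hv (lt_of_lt_of_le hv hs)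
  refine ⟨fun v => e (f v), ?_, ?_, ?_⟩
  · intro u hu v hv huv
    exact hfinj u hu v hv (he (hmem u hu) (hmem v hv) huv)
  · simp [hf0]
  · intro u hu v hv huv
    obtain ⟨c, hc⟩ := hg (f u) (f v) (hfadj u hu v hv huv)
    exact ⟨c, by simp only [hr _ (hmem u hu), hc]⟩

end

end Pool.Agent.SRC
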