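import Mathlib
import Pool.Agent.SRC.A
import Pool.Agent.SRC.B
import Pool.Agent.SRC.C

/-!
# Good selections of types and deletion of few vertices
-/

namespace Pool.Agent.SRC

open Finset

/-- A selection of `k` types such that at most `l` of them can sit at any place of any host with
degrees at most `D`. -/
theorem exists_good_types {b s m M D h k l : ℕ} (hb : 2 ≤ b) (hms : 2 * m ≤ s) (hD : 1 ≤ D)
    (hM : (D + 1) ^ h ≤ M) (hs : s ≤ b ^ h)
    (hnum : M ^ (D * M) * M * (k * (D ^ s * D ^ (b * m))) ^ (l + 1) <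
      ((m.factorial) ^ b) ^ (l + 1)) :
    ∃ ψ : Fin k → (Fin b → Equiv.Perm (Fin m)), ∀ (n : ℕ) (nb : Fin n → Finset (Fin n)),
      (∀ y, (nb y).card ≤ D) → ∀ x,
        Nat.card {q : Fin k // CopyAt b s m nb x (ψ q)} ≤ l := by
  classical
  let Bad : (Fin M → Fin D → Fin M) × Fin M → Finset (Fin b → Equiv.Perm (Fin m)) :=
    fun i => univ.filter (fun π => Emb b s m i.1 i.2 π)
  have hBad : ∀ i, (Bad i).card ≤ D ^ s * D ^ (b * m) := by
    intro i
    have := card_emb_le (m := m) hb hms hD i.1 i.2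
    rw [Nat.card_eq_fintype_card, Fintype.card_subtype] at this
    exact this
  obtain ⟨ψ, hψ⟩ := exists_selection Bad (D ^ s * D ^ (b * m)) k l hBad (by
    have h1 : Fintype.card ((Fin M → Fin D → Fin M) × Fin M) = M ^ (D * M) * M := by
      simp [pow_mul]
    have h2 : Fintype.card (Fin b → Equiv.Perm (Fin m)) = (m.factorial) ^ b := by
      simp [Fintype.card_perm]
    rw [h1, h2]
    exact hnum)
  refine ⟨ψ, fun n nb hnb x => ?_⟩
  obtain ⟨N, x₀, hN⟩ := exists_local (m := m) hb hD hM hs nb hnb x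
  rw [Nat.card_eq_fintype_card, Fintype.card_subtype]
  refine le_trans (card_le_card ?_) (hψ (N, x₀))
  intro q hq
  simp only [mem_filter, mem_univ, true_and, Bad] at hq ⊢
  exact hN _ hq

/-- Deletion: in a host with `e` edges few vertices meet all copies of some type. -/
theorem exists_deletion {b s m D k l : ℕ} (hb : 2 ≤ b) (hs2 : 2 ≤ s) (hk : 1 ≤ k)
    (ψ : Fin k → (Fin b → Equiv.Perm (Fin m)))
    (hψ : ∀ (n : ℕ) (nb : Fin n → Finset (Fin n)), (∀ y, (nb y).card ≤ D) → ∀ x,
        Nat.card {q : Fin k // CopyAt b s m nb x (ψ q)} ≤ l)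
    {n : ℕ} (G : SimpleGraph (Fin n)) :
    ∃ (q : Fin k) (Y : Finset (Fin n)),
      (Y.card : ℝ) ≤ 2 * (G.edgeSet.ncard : ℝ) / (D + 1) + 2 * (G.edgeSet.ncard : ℝ) * l / k ∧
      ∀ f : ℕ → Fin n, (∀ u < s, ∀ v < s, f u = f v → u = v) →
        (∀ u < s, ∀ v < s, tAdj b s m (ψ q) u v → G.Adj (f u) (f v)) → ∃ u < s, f u ∈ Y := by
  classical
  set e := G.edgeSet.ncard with he
  have hdeg : ∑ v, G.degree v = 2 * e := by
    rw [SimpleGraph.sum_degrees_eq_twice_card_edges, he, Set.ncard_eq_toFinset_card',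
      SimpleGraph.edgeFinset]
  let Vh : Finset (Fin n) := univ.filter (fun v => D < G.degree v)
  have hVh : Vh.card * (D + 1) ≤ 2 * e := by
    calc Vh.card * (D + 1) = ∑ _v ∈ Vh, (D + 1) := by simp
      _ ≤ ∑ v ∈ Vh, G.degree v := by
          refine sum_le_sum fun v hv => ?_
          have := (mem_filter.mp hv).2
          omega
      _ ≤ ∑ v, G.degree v := sum_le_sum_of_subset (subset_univ _)
      _ = 2 * e := hdeg
  let V1 : Finset (Fin n) := univ.filter (fun v => 0 < G.degree v)
  have hV1 : V1.card ≤ 2 * e := by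
    calc V1.card = ∑ _v ∈ V1, 1 := by simp
      _ ≤ ∑ v ∈ V1, G.degree v := by
          refine sum_le_sum fun v hv => ?_
          have := (mem_filter.mp hv).2
          omega
      _ ≤ ∑ v, G.degree v := sum_le_sum_of_subset (subset_univ _)
      _ = 2 * e := hdeg
  let nb : Fin n → Finset (Fin n) := fun y =>
    if y ∈ Vh then ∅ else (G.neighborFinset y).filter (fun z => z ∉ Vh)
  have hnb : ∀ y, (nb y).card ≤ D := by
    intro y
    by_cases hy : y ∈ Vh
    · simp [nb, hy]
    · simp only [nb, hy, if_false]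
      have h1 : ¬ D < G.degree y := by simpa [Vh] using hy
      calc _ ≤ (G.neighborFinset y).card := card_filter_le _ _
        _ = G.degree y := G.card_neighborFinset_eq_degree y
        _ ≤ D := not_lt.mp h1
  let X : Fin k → Finset (Fin n) := fun q => univ.filter (fun x => CopyAt b s m nb x (ψ q))
  have hXV : ∀ q, ∀ x ∈ X q, x ∈ V1 := by
    intro q x hx
    obtain ⟨f, -, hf0, hadj⟩ := (mem_filter.mp hx).2
    have h01 : tAdj b s m (ψ q) 0 1 := by
      have := tAdj_parent (s := s) (m := m) hb (π := ψ q) (v := 1) one_pos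
      simpa using this
    have h2 := hadj 0 (by omega) 1 (by omega) h01
    rw [hf0] at h2
    have hxV : x ∉ Vh := by
      intro hx'
      simp [nb, hx'] at h2
    simp only [nb, hxV, if_false, mem_filter, SimpleGraph.mem_neighborFinset] at h2
    simp only [V1, mem_filter, mem_univ, true_and]
    exact (G.degree_pos_iff_exists_adj x).mpr ⟨_, h2.1⟩
  have hsum : ∑ q, (X q).card ≤ 2 * e * l := by
    calc ∑ q, (X q).card = ∑ q, ∑ x ∈ V1, (if CopyAt b s m nb x (ψ q) then 1 else 0) := by
          refine sum_congr rfl fun q _ => ?_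
          rw [← sum_filter, sum_const, smul_eq_mul, mul_one]
          congr 1
          ext x
          constructor
          · intro hx
            exact mem_filter.mpr ⟨hXV q x hx, (mem_filter.mp hx).2⟩
          · intro hx
            exact mem_filter.mpr ⟨mem_univ _, (mem_filter.mp hx).2⟩
      _ = ∑ x ∈ V1, ∑ q, (if CopyAt b s m nb x (ψ q) then 1 else 0) := sum_comm
      _ ≤ ∑ _x ∈ V1, l := by
          refine sum_le_sum fun x _ => ?_
          have h1 := hψ n nb hnb x
          rw [Nat.card_eq_fintype_card, Fintype.card_subtype] at h1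
          rw [← sum_filter, sum_const, smul_eq_mul, mul_one]
          exact h1
      _ = V1.card * l := by simp
      _ ≤ 2 * e * l := Nat.mul_le_mul_right _ hV1
  have hex : ∃ q : Fin k, k * (X q).card ≤ 2 * e * l := by
    by_contra hcon
    push Not at hcon
    have hne : (univ : Finset (Fin k)).Nonempty := ⟨⟨0, hk⟩, mem_univ _⟩
    have h1 : ∑ _q : Fin k, (2 * e * l) < ∑ q : Fin k, k * (X q).card :=
      sum_lt_sum_of_nonempty hne (fun q _ => hcon q)
    have h2 : ∑ q : Fin k, k * (X q).card = k * ∑ q, (X q).card := by rw [mul_sum]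
    rw [h2, sum_const, card_univ, Fintype.card_fin, smul_eq_mul] at h1
    have h3 := Nat.lt_of_mul_lt_mul_left h1
    omega
  obtain ⟨q, hq⟩ := hex
  refine ⟨q, Vh ∪ X q, ?_, ?_⟩
  · have h1 : ((Vh ∪ X q).card : ℝ) ≤ Vh.card + (X q).card := by
      exact_mod_cast card_union_le _ _
    have h2 : (Vh.card : ℝ) ≤ 2 * e / (D + 1) := by
      rw [le_div_iff₀ (by positivity)]
      exact_mod_cast hVh
    have h3 : ((X q).card : ℝ) ≤ 2 * e * l / k := by
      rw [le_div_iff₀ (by exact_mod_cast hk)]
      have : ((k * (X q).card : ℕ) : ℝ) ≤ ((2 * e * l : ℕ) : ℝ) := by exact_mod_cast hq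
      push_cast at this
      linarith
    linarith
  · intro f hinj hadj
    by_contra hcon
    push Not at hcon
    have h0 : f 0 ∈ X q := by
      simp only [X, mem_filter, mem_univ, true_and]
      refine ⟨f, hinj, rfl, ?_⟩
      intro u hu v hv huv
      have hu' : f u ∉ Vh := fun h => hcon u hu (mem_union_left _ h)
      have hv' : f v ∉ Vh := fun h => hcon v hv (mem_union_left _ h)
      simp only [nb, hu', if_false, mem_filter, SimpleGraph.mem_neighborFinset]
      exact ⟨hadj u hu v hv huv, hv'⟩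
    exact hcon 0 (by omega) (mem_union_right _ h0)

end Pool.Agent.SRC
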