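import Mathlib
import Pool.Agent.SRC.A

/-!
# The block graph
-/

namespace Pool.Agent.SRC

open Finset

/-- Disjoint union of the types `φ q`, `q < n / s`, on the blocks of length `s`; the remaining
vertices are isolated. -/
def blockGraph (b s m n : ℕ) (φ : ℕ → (Fin b → Equiv.Perm (Fin m))) : SimpleGraph (Fin n) where
  Adj u v := (u : ℕ) / s = (v : ℕ) / s ∧ (u : ℕ) / s < n / s ∧
    tAdj b s m (φ ((u : ℕ) / s)) ((u : ℕ) % s) ((v : ℕ) % s)
  symm := ⟨fun u v h => ⟨h.1.symm, by rw [← h.1]; exact h.2.1, by rw [← h.1]; exact tAdj_symm h.2.2⟩⟩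
  loopless := ⟨fun u h => h.2.2.1 rfl⟩

variable {b s m n : ℕ} {φ : ℕ → (Fin b → Equiv.Perm (Fin m))}

/-- neighbours of a vertex in a type -/
noncomputable def nbT (b s m : ℕ) (π : Fin b → Equiv.Perm (Fin m)) (u : ℕ) : Finset ℕ := by
  classical exact (range s).filter (fun v => tAdj b s m π u v)

/-- At most `b+1` neighbours. -/
theorem card_nbT_le (hb : 2 ≤ b) (hms : 2 * m ≤ s) (hbs : s ≤ b * (s - 2 * m) + 1)
    (π : Fin b → Equiv.Perm (Fin m)) {u : ℕ} (hu : u < s) :
    (nbT b s m π u).card ≤ b + 1 := by
  classical
  by_cases hA : u < s - 2 * m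
  · -- inner vertex
    have hsub : nbT b s m π u ⊆ insert ((u - 1) / b) ((range b).image (fun j => b * u + 1 + j)) := by
      intro v hv
      simp only [nbT, mem_filter, mem_range] at hv
      obtain ⟨hvs, hne, h | h⟩ := hv
      · rcases h with ⟨-, h⟩ | ⟨j, a, h1, h2⟩
        · exact mem_insert.mpr (Or.inl h)
        · omega
      · rcases h with ⟨hpos, h⟩ | ⟨j, a, h1, h2⟩
        · refine mem_insert.mpr (Or.inr (mem_image.mpr ⟨v - 1 - b * u, ?_, ?_⟩))
          · have h3 := Nat.div_add_mod (v - 1) b
            have h4 := Nat.mod_lt (v - 1) (show 0 < b by omega)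
            rw [← h] at h3
            rw [mem_range]
            omega
          · have h3 := Nat.div_add_mod (v - 1) b
            rw [← h] at h3
            omega
        · have := (π j a).2
          omega
    calc _ ≤ _ := card_le_card hsub
      _ ≤ _ := card_insert_le _ _
      _ ≤ b + 1 := by
          have := card_image_le (s := range b) (f := fun j => b * u + 1 + j)
          simp only [card_range] at this
          omega
  · push Not at hA
    have hnochild : ∀ v < s, ¬ (0 < v ∧ u = (v - 1) / b) := by
      rintro v hv ⟨hpos, h⟩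
      have h3 := Nat.div_mul_le_self (v - 1) b
      rw [← h] at h3
      have h4 : b * (s - 2 * m) ≤ b * u := Nat.mul_le_mul_left b hA
      have h5 : u * b = b * u := mul_comm _ _
      omega
    by_cases hB : u < s - m
    · -- first half of the leaves
      have hum : u - (s - 2 * m) < m := by omega
      have hsub : nbT b s m π u ⊆ insert ((u - 1) / b)
          ((univ : Finset (Fin b)).image (fun j => s - m + (π j ⟨u - (s - 2 * m), hum⟩ : ℕ))) := by
        intro v hv
        simp only [nbT, mem_filter, mem_range] at hv
        obtain ⟨hvs, hne, h | h⟩ := hv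
        · rcases h with ⟨-, h⟩ | ⟨j, a, h1, h2⟩
          · exact mem_insert.mpr (Or.inl h)
          · refine mem_insert.mpr (Or.inr (mem_image.mpr ⟨j, mem_univ _, ?_⟩))
            have : a = ⟨u - (s - 2 * m), hum⟩ := by
              apply Fin.ext
              simp only
              omega
            rw [← this, h2]
        · rcases h with h | ⟨j, a, h1, h2⟩
          · exact absurd h (hnochild v hvs)
          · have := (π j a).2
            omega
      calc _ ≤ _ := card_le_card hsub
        _ ≤ _ := card_insert_le _ _
        _ ≤ b + 1 := by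
            have := card_image_le (s := (univ : Finset (Fin b)))
              (f := fun j => s - m + (π j ⟨u - (s - 2 * m), hum⟩ : ℕ))
            simp only [card_univ, Fintype.card_fin] at this
            omega
    · push Not at hB
      have hum : u - (s - m) < m := by omega
      have hsub : nbT b s m π u ⊆ insert ((u - 1) / b)
          ((univ : Finset (Fin b)).image
            (fun j => s - 2 * m + ((π j).symm ⟨u - (s - m), hum⟩ : ℕ))) := by
        intro v hv
        simp only [nbT, mem_filter, mem_range] at hv
        obtain ⟨hvs, hne, h | h⟩ := hv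
        · rcases h with ⟨-, h⟩ | ⟨j, a, h1, h2⟩
          · exact mem_insert.mpr (Or.inl h)
          · have := a.2
            omega
        · rcases h with h | ⟨j, a, h1, h2⟩
          · exact absurd h (hnochild v hvs)
          · refine mem_insert.mpr (Or.inr (mem_image.mpr ⟨j, mem_univ _, ?_⟩))
            have : π j a = ⟨u - (s - m), hum⟩ := by
              apply Fin.ext
              simp only
              omega
            rw [← this, h1]
            simp
      calc _ ≤ _ := card_le_card hsub
        _ ≤ _ := card_insert_le _ _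
        _ ≤ b + 1 := by
            have := card_image_le (s := (univ : Finset (Fin b)))
              (f := fun j => s - 2 * m + ((π j).symm ⟨u - (s - m), hum⟩ : ℕ))
            simp only [card_univ, Fintype.card_fin] at this
            omega

/-- Degrees of the block graph are at most `b+1`. -/
theorem blockGraph_degree_le (hb : 2 ≤ b) (hs : 0 < s) (hms : 2 * m ≤ s)
    (hbs : s ≤ b * (s - 2 * m) + 1) (v : Fin n) :
    ((blockGraph b s m n φ).neighborSet v).ncard ≤ b + 1 := by
  classical
  have h1 : ((blockGraph b s m n φ).neighborSet v).ncard ≤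
      (↑(nbT b s m (φ ((v : ℕ) / s)) ((v : ℕ) % s)) : Set ℕ).ncard := by
    apply Set.ncard_le_ncard_of_injOn (fun w : Fin n => (w : ℕ) % s)
    · intro w hw
      have hw' : (blockGraph b s m n φ).Adj v w := hw
      simp only [nbT, coe_filter, Set.mem_ofPred_eq, mem_range]
      exact ⟨Nat.mod_lt _ hs, hw'.2.2⟩
    · intro w hw w' hw' hww
      have h1 : (blockGraph b s m n φ).Adj v w := hw
      have h2 : (blockGraph b s m n φ).Adj v w' := hw'
      have h3 : (w : ℕ) / s = (w' : ℕ) / s := h1.1.symm.trans h2.1
      apply Fin.ext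
      rw [← Nat.div_add_mod (w : ℕ) s, ← Nat.div_add_mod (w' : ℕ) s, h3]
      simpa using hww
  refine h1.trans ?_
  rw [Set.ncard_coe_finset]
  exact card_nbT_le hb hms hbs _ (Nat.mod_lt _ hs)

/-- The vertex `1` has degree exactly `b+1`. -/
theorem blockGraph_degree_one (hb : 2 ≤ b) (hms : 2 * m ≤ s)
    (hbs : s ≤ b * (s - 2 * m) + 1) (hs1 : 2 * b < s) (hsn : s ≤ n) :
    ((blockGraph b s m n φ).neighborSet ⟨1, by omega⟩).ncard = b + 1 := by
  classical
  refine le_antisymm (blockGraph_degree_le hb (by omega) hms hbs _) ?_
  have h0s : (0 : ℕ) / s = 0 := by simp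
  have hns : 0 < n / s := Nat.div_pos hsn (by omega)
  have hadj : ∀ w : ℕ, (hw : w < s) → tAdj b s m (φ 0) 1 w →
      (⟨w, lt_of_lt_of_le hw hsn⟩ : Fin n) ∈
        (blockGraph b s m n φ).neighborSet ⟨1, by omega⟩ := by
    intro w hw h
    show (blockGraph b s m n φ).Adj _ _
    refine ⟨?_, ?_, ?_⟩
    · simp only
      rw [Nat.div_eq_of_lt hw, Nat.div_eq_of_lt (by omega)]
    · simp only
      rw [Nat.div_eq_of_lt (by omega)]
      exact hns
    · simp only
      rw [Nat.div_eq_of_lt (by omega : 1 < s), Nat.mod_eq_of_lt (by omega : 1 < s),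
        Nat.mod_eq_of_lt hw]
      exact h
  -- the map from `Fin (b+1)`
  let g : Fin (b + 1) → Fin n := fun i =>
    if h : (i : ℕ) = 0 then ⟨0, by omega⟩ else ⟨b + i, by have := i.2; omega⟩
  have hg : Function.Injective g := by
    intro i j hij
    simp only [g] at hij
    apply Fin.ext
    split_ifs at hij with h1 h2 h2
    · omega
    · simp only [Fin.mk.injEq] at hij; omega
    · simp only [Fin.mk.injEq] at hij; omega
    · simp only [Fin.mk.injEq] at hij; omega
  have hrange : Set.range g ⊆ (blockGraph b s m n φ).neighborSet ⟨1, by omega⟩ := by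
    rintro _ ⟨i, rfl⟩
    simp only [g]
    split_ifs with h1
    · apply hadj 0 (by omega)
      have := tAdj_parent (s := s) (m := m) hb (π := φ 0) (v := 1) one_pos
      exact tAdj_symm (by simpa using this)
    · have hi := i.2
      apply hadj (b + i) (by omega)
      have := tAdj_parent (s := s) (m := m) hb (π := φ 0) (v := b + i) (by omega)
      have h2 : (b + (i : ℕ) - 1) / b = 1 := by
        rw [Nat.div_eq_iff (by omega)]
        omega
      rw [h2] at this
      exact this
  calc b + 1 = (Set.range g).ncard := by
        rw [← Set.image_univ, Set.ncard_image_of_injective _ hg]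
        simp [Set.ncard_univ]
    _ ≤ _ := Set.ncard_le_ncard hrange (Set.toFinite _)

/-- Components have at most `s` vertices. -/
theorem blockGraph_component (hs : 0 < s) (C : (blockGraph b s m n φ).ConnectedComponent) :
    C.supp.ncard ≤ s := by
  classical
  obtain ⟨v, rfl⟩ := C.exists_rep
  have hreach : ∀ w, (blockGraph b s m n φ).Reachable v w → (v : ℕ) / s = (w : ℕ) / s := by
    rintro w ⟨p⟩
    induction p with
    | nil => rfl
    | cons h _ ih => exact h.1.trans ih
  have h1 : (((blockGraph b s m n φ).connectedComponentMk v).supp).ncard ≤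
      (↑(range s) : Set ℕ).ncard := by
    apply Set.ncard_le_ncard_of_injOn (fun w : Fin n => (w : ℕ) % s)
    · intro w _
      simp only [coe_range, Set.mem_Iio]
      exact Nat.mod_lt _ hs
    · intro w hw w' hw' hww
      have e1 : (v : ℕ) / s = (w : ℕ) / s := hreach w (by
        rw [SimpleGraph.ConnectedComponent.mem_supp_iff] at hw
        exact (SimpleGraph.ConnectedComponent.exact hw).symm)
      have e2 : (v : ℕ) / s = (w' : ℕ) / s := hreach w' (by
        rw [SimpleGraph.ConnectedComponent.mem_supp_iff] at hw'
        exact (SimpleGraph.ConnectedComponent.exact hw').symm)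
      apply Fin.ext
      rw [← Nat.div_add_mod (w : ℕ) s, ← Nat.div_add_mod (w' : ℕ) s, ← e1, ← e2]
      simpa using hww
  refine h1.trans ?_
  rw [Set.ncard_coe_finset, card_range]

end Pool.Agent.SRC
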