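import Mathlib
import Pool.Agent.SRC.D
import Pool.Agent.SRC.E

/-!
# The block graph of a good selection
-/

namespace Pool.Agent.SRC

open Finset

/-- A set of vertices which covers all edges of a copy of the block graph is large. -/
theorem cover_large {b s m n N : ℕ} {φ : ℕ → (Fin b → Equiv.Perm (Fin m))} (hb : 2 ≤ b)
    (hs : 0 < s) (f : Fin n → Fin N) (hf : Function.Injective f) (Y : Finset (Fin N))
    (hY : ∀ u v, (blockGraph b s m n φ).Adj u v → f u ∈ Y ∨ f v ∈ Y) :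
    (n / s) * (s - 1) ≤ Y.card * (b + 1) := by
  classical
  have hw : ∀ (q : Fin (n / s)) (r : ℕ), r < s → (q : ℕ) * s + r < n := by
    intro q r hr
    have h1 : ((q : ℕ) + 1) * s ≤ (n / s) * s := Nat.mul_le_mul_right s q.2
    have h2 := Nat.div_mul_le_self n s
    have h3 : ((q : ℕ) + 1) * s = (q : ℕ) * s + s := by ring
    omega
  have hdiv : ∀ (q r : ℕ), r < s → (q * s + r) / s = q := by
    intro q r hr
    rw [mul_comm, Nat.mul_add_div hs, Nat.div_eq_of_lt hr, add_zero]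
  have hmod : ∀ (q r : ℕ), r < s → (q * s + r) % s = r := by
    intro q r hr
    rw [mul_comm, Nat.mul_add_mod, Nat.mod_eq_of_lt hr]
  have hrb : ∀ r : Fin (s - 1), (r : ℕ) / b < s := fun r =>
    lt_of_le_of_lt (Nat.div_le_self _ _) (by have := r.2; omega)
  have hr1 : ∀ r : Fin (s - 1), (r : ℕ) + 1 < s := fun r => by have := r.2; omega
  have hedge : ∀ (q : Fin (n / s)) (r : Fin (s - 1)),
      f ⟨(q : ℕ) * s + ((r : ℕ) + 1), hw q _ (hr1 r)⟩ ∈ Y ∨
        f ⟨(q : ℕ) * s + (r : ℕ) / b, hw q _ (hrb r)⟩ ∈ Y := by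
    intro q r
    apply hY
    refine ⟨?_, ?_, ?_⟩
    · simp only
      rw [hdiv _ _ (hr1 r), hdiv _ _ (hrb r)]
    · simp only
      rw [hdiv _ _ (hr1 r)]
      exact q.2
    · simp only
      rw [hdiv _ _ (hr1 r), hmod _ _ (hr1 r), hmod _ _ (hrb r)]
      have := tAdj_parent (s := s) (m := m) hb (π := φ (q : ℕ)) (v := (r : ℕ) + 1) (by omega)
      simp only [Nat.add_sub_cancel] at this
      exact tAdj_symm this
  let g : Fin (n / s) × Fin (s - 1) → Y × Fin (b + 1) := fun p =>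
    if h : f ⟨(p.1 : ℕ) * s + ((p.2 : ℕ) + 1), hw p.1 _ (hr1 p.2)⟩ ∈ Y then (⟨_, h⟩, 0)
    else (⟨f ⟨(p.1 : ℕ) * s + (p.2 : ℕ) / b, hw p.1 _ (hrb p.2)⟩,
        (hedge p.1 p.2).resolve_left h⟩,
      ⟨(p.2 : ℕ) % b + 1, by have := Nat.mod_lt (p.2 : ℕ) (show 0 < b by omega); omega⟩)
  have hg : Function.Injective g := by
    rintro ⟨q, r⟩ ⟨q', r'⟩ h
    simp only [g] at h
    split_ifs at h with h1 h2 h2
    · simp only [Prod.mk.injEq, Subtype.mk.injEq, and_true] at h
      have h3 := hf h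
      simp only [Fin.mk.injEq] at h3
      have h4 := hdiv q _ (hr1 r)
      have h5 := hdiv q' _ (hr1 r')
      rw [h3] at h4
      have h6 : (q : ℕ) = q' := h4.symm.trans h5
      have h7 : (r : ℕ) = r' := by rw [h6] at h3; omega
      exact Prod.ext (Fin.ext h6) (Fin.ext h7)
    · simp only [Prod.mk.injEq, Fin.ext_iff] at h
      have := h.2
      simp at this
    · simp only [Prod.mk.injEq, Fin.ext_iff] at h
      have := h.2
      simp at this
    · simp only [Prod.mk.injEq, Subtype.mk.injEq, Fin.mk.injEq] at h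
      have h3 := hf h.1
      simp only [Fin.mk.injEq] at h3
      have h4 := hdiv q _ (hrb r)
      have h5 := hdiv q' _ (hrb r')
      rw [h3] at h4
      have h6 : (q : ℕ) = q' := h4.symm.trans h5
      have h8 : (r : ℕ) / b = (r' : ℕ) / b := by rw [h6] at h3; omega
      have h9 : (r : ℕ) % b = (r' : ℕ) % b := by have := h.2; omega
      have h7 : (r : ℕ) = r' := by
        rw [← Nat.div_add_mod (r : ℕ) b, ← Nat.div_add_mod (r' : ℕ) b, h8, h9]
      exact Prod.ext (Fin.ext h6) (Fin.ext h7)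
  have := Fintype.card_le_of_injective g hg
  simpa using this

/-- The graph `H`: all hosts with few edges can be made free of `H` by deleting few vertices. -/
theorem exists_H {b s m M D h k l n : ℕ} (hb : 2 ≤ b) (hms : 2 * m ≤ s)
    (hbs : s ≤ b * (s - 2 * m) + 1) (hs1 : 2 * b < s) (hD : 1 ≤ D)
    (hM : (D + 1) ^ h ≤ M) (hs : s ≤ b ^ h)
    (hnum : M ^ (D * M) * M * (k * (D ^ s * D ^ (b * m))) ^ (l + 1) <
      ((m.factorial) ^ b) ^ (l + 1)) (hk : 1 ≤ k) (hkn : k * s ≤ n) :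
    ∃ H : SimpleGraph (Fin n),
      (∀ v, (H.neighborSet v).ncard ≤ b + 1) ∧ (∃ v, (H.neighborSet v).ncard = b + 1) ∧
      (∀ C : H.ConnectedComponent, C.supp.ncard ≤ s) ∧
      (∀ (N : ℕ) (f : Fin n → Fin N), Function.Injective f → ∀ Y : Finset (Fin N),
        (∀ u v, H.Adj u v → f u ∈ Y ∨ f v ∈ Y) → (n / s) * (s - 1) ≤ Y.card * (b + 1)) ∧
      ∀ (N : ℕ) (G : SimpleGraph (Fin N)), ∃ Y : Finset (Fin N),
        (Y.card : ℝ) ≤ 2 * (G.edgeSet.ncard : ℝ) / (D + 1) + 2 * (G.edgeSet.ncard : ℝ) * l / k ∧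
        ∀ f : Fin n → Fin N, Function.Injective f → (∀ u v, H.Adj u v → G.Adj (f u) (f v)) →
          ∃ u w, H.Adj u w ∧ f u ∈ Y := by
  classical
  obtain ⟨ψ, hψ⟩ := exists_good_types (k := k) hb hms hD hM hs hnum
  have hspos : 0 < s := by omega
  have hsn : s ≤ n := le_trans (by nlinarith) hkn
  let φ : ℕ → (Fin b → Equiv.Perm (Fin m)) := fun q => if hq : q < k then ψ ⟨q, hq⟩ else ψ ⟨0, hk⟩
  refine ⟨blockGraph b s m n φ, blockGraph_degree_le hb hspos hms hbs,
    ⟨_, blockGraph_degree_one hb hms hbs hs1 hsn⟩, blockGraph_component hspos,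
    fun N f hf Y hY => cover_large hb hspos f hf Y hY, fun N G => ?_⟩
  obtain ⟨q, Y, hY1, hY2⟩ := exists_deletion (s := s) hb (by omega) hk ψ hψ G
  refine ⟨Y, hY1, fun f hf hadj => ?_⟩
  have hkns : k ≤ n / s := (Nat.le_div_iff_mul_le hspos).mpr hkn
  have hw : ∀ r, r < s → (q : ℕ) * s + r < n := by
    intro r hr
    have h1 : ((q : ℕ) + 1) * s ≤ k * s := Nat.mul_le_mul_right s q.2
    have h3 : ((q : ℕ) + 1) * s = (q : ℕ) * s + s := by ring
    omega
  have hdiv : ∀ r, r < s → ((q : ℕ) * s + r) / s = q := by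
    intro r hr
    rw [mul_comm, Nat.mul_add_div hspos, Nat.div_eq_of_lt hr, add_zero]
  have hmod : ∀ r, r < s → ((q : ℕ) * s + r) % s = r := by
    intro r hr
    rw [mul_comm, Nat.mul_add_mod, Nat.mod_eq_of_lt hr]
  have hnpos : 0 < n := by omega
  obtain ⟨u, hu, huY⟩ := hY2
    (fun r => if hr : r < s then f ⟨(q : ℕ) * s + r, hw r hr⟩ else f ⟨0, hnpos⟩) (by
      intro u hu v hv huv
      simp only [hu, hv, dif_pos] at huv
      have := hf huv
      simp only [Fin.mk.injEq] at this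
      omega) (by
      intro u hu v hv huv
      simp only [hu, hv, dif_pos]
      apply hadj
      refine ⟨?_, ?_, ?_⟩
      · simp only
        rw [hdiv u hu, hdiv v hv]
      · simp only
        rw [hdiv u hu]
        exact lt_of_lt_of_le q.2 hkns
      · simp only
        rw [hdiv u hu, hmod u hu, hmod v hv]
        have : φ (q : ℕ) = ψ q := by simp [φ]
        rw [this]
        exact huv)
  simp only [hu, dif_pos] at huY
  have hadj' : ∀ w (hw' : w < s), tAdj b s m (φ (q : ℕ)) u w →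
      (blockGraph b s m n φ).Adj ⟨(q : ℕ) * s + u, hw u hu⟩ ⟨(q : ℕ) * s + w, hw w hw'⟩ := by
    intro w hw' h
    refine ⟨?_, ?_, ?_⟩
    · simp only
      rw [hdiv u hu, hdiv w hw']
    · simp only
      rw [hdiv u hu]
      exact lt_of_lt_of_le q.2 hkns
    · simp only
      rw [hdiv u hu, hmod u hu, hmod w hw']
      exact h
  rcases Nat.eq_zero_or_pos u with h0 | hpos
  · refine ⟨_, ⟨(q : ℕ) * s + 1, hw 1 (by omega)⟩, hadj' 1 (by omega) ?_, huY⟩
    have := tAdj_parent (s := s) (m := m) hb (π := φ (q : ℕ)) (v := 1) one_pos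
    subst h0
    simpa using this
  · exact ⟨_, ⟨(q : ℕ) * s + (u - 1) / b, hw _ ((parent_lt hb hpos).trans hu)⟩,
      hadj' _ ((parent_lt hb hpos).trans hu) (tAdj_symm (tAdj_parent hb hpos)), huY⟩

end Pool.Agent.SRC
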