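import Mathlib

/-!
# Choice of the parameters
-/

namespace Pool.Agent.SRC

open Real

lemma quad_le_exp (A B C : ℝ) : ∃ L0 : ℝ, 1 ≤ L0 ∧ ∀ L, L0 ≤ L → A * L ^ 2 + B * L + C ≤ exp L := by
  refine ⟨6 * (|A| + |B| + |C|) + 1, by nlinarith [abs_nonneg A, abs_nonneg B, abs_nonneg C], ?_⟩
  intro L hL
  have hL1 : 1 ≤ L := by nlinarith [abs_nonneg A, abs_nonneg B, abs_nonneg C]
  have h1 : L ^ 3 / (Nat.factorial 3 : ℕ) ≤ exp L := Real.pow_div_factorial_le_exp L (by linarith) 3
  have h2 : ((Nat.factorial 3 : ℕ) : ℝ) = 6 := by norm_num [Nat.factorial]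
  rw [h2] at h1
  have h3 : (|A| + |B| + |C|) * L ^ 2 ≤ L ^ 3 / 6 := by
    have : (|A| + |B| + |C|) ≤ L / 6 := by linarith
    calc (|A| + |B| + |C|) * L ^ 2 ≤ L / 6 * L ^ 2 := by gcongr
      _ = L ^ 3 / 6 := by ring
  have h4 : A * L ^ 2 ≤ |A| * L ^ 2 := by gcongr; exact le_abs_self A
  have h5 : B * L ≤ |B| * L ^ 2 := by
    calc B * L ≤ |B| * L := by gcongr; exact le_abs_self B
      _ ≤ |B| * L ^ 2 := by
        have : L ≤ L ^ 2 := by nlinarith
        exact mul_le_mul_of_nonneg_left this (abs_nonneg B)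
  have h6 : C ≤ |C| * L ^ 2 := by
    calc C ≤ |C| * 1 := by rw [mul_one]; exact le_abs_self C
      _ ≤ |C| * L ^ 2 := by
        have : 1 ≤ L ^ 2 := by nlinarith
        exact mul_le_mul_of_nonneg_left this (abs_nonneg C)
  nlinarith

lemma log_factorial_ge (m : ℕ) (hm : 1 ≤ m) : m * log m - m ≤ log (m.factorial) := by
  have h1 : (m : ℝ) ^ m / (m.factorial) ≤ exp m :=
    Real.pow_div_factorial_le_exp m (by positivity) m
  have hmpos : (0 : ℝ) < m := by exact_mod_cast hm
  have hf : (0 : ℝ) < m.factorial := by exact_mod_cast m.factorial_pos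
  have h2 := Real.log_le_log (by positivity) h1
  rw [Real.log_exp, Real.log_div (by positivity) (by positivity), Real.log_pow] at h2
  linarith

/-- The parameters. -/
theorem numbers (b : ℕ) (hb : 2 ≤ b) (θ γ δ : ℝ) (hθ : θ = (b - 1) / (b + 1)) (hγ : 0 < γ)
    (hγθ : γ ≤ θ / 2) (hδ : 0 < δ) :
    ∃ s₀ : ℕ, ∀ s n : ℕ, s₀ ≤ s → θ * (log s) ^ 2 ≤ log b * log n →
      ∃ m D M h k l : ℕ, 2 * m ≤ s ∧ s ≤ b * (s - 2 * m) + 1 ∧ 2 * b < s ∧ 1 ≤ D ∧
        (D + 1) ^ h ≤ M ∧ s ≤ b ^ h ∧
        M ^ (D * M) * M * (k * (D ^ s * D ^ (b * m))) ^ (l + 1) < ((m.factorial) ^ b) ^ (l + 1) ∧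
        1 ≤ k ∧ k * s ≤ n ∧ k = (D + 1) * l ∧ 4 / δ * (s : ℝ) ^ (θ - γ) ≤ D + 1 := by
  have hb' : (2 : ℝ) ≤ b := by exact_mod_cast hb
  have hlb : 0 < log b := Real.log_pos (by linarith)
  have hθpos : 0 < θ := by rw [hθ]; apply div_pos <;> linarith
  set a := θ - γ with ha
  have hapos : 0 < a := by linarith
  set c1 := log (4 / δ + 1) with hc1
  set c2 := log (4 / δ + 2) with hc2
  have hc1pos : 0 < c1 := Real.log_pos (by have : 0 < 4 / δ := by positivity
                                           linarith)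
  have hc2pos : 0 < c2 := Real.log_pos (by have : 0 < 4 / δ := by positivity
                                           linarith)
  -- thresholds
  obtain ⟨L1, hL1, hE⟩ := quad_le_exp (4 * (2 / log b * a)) (4 * (2 / log b * c2 + 4 * a + 4 * a))
    (4 * (4 * c2 + 4 * c1))
  -- bracket at least one
  set L2 := (log 8 + 1 + c1 / θ + 1) * θ / γ with hL2
  -- second quadratic inequality
  set L3 := (c2 / log b + 3 * a + 1 + 3 * c2) * log b / γ + 1 with hL3
  set L0 := max (max L1 L2) (max L3 (log (8 * b + 8))) with hL0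
  refine ⟨⌈exp L0⌉₊, ?_⟩
  intro s n hs hn
  have hsR : exp L0 ≤ s := (Nat.le_ceil _).trans (by exact_mod_cast hs)
  have hspos : (0 : ℝ) < s := (exp_pos _).trans_le hsR
  set L := log s with hL
  have hLL0 : L0 ≤ L := by
    rw [hL, Real.le_log_iff_exp_le hspos]
    exact hsR
  have hexpL : exp L = s := Real.exp_log hspos
  have hLL1 : L1 ≤ L := ((le_max_left _ _).trans (le_max_left _ _)).trans hLL0
  have hLL2 : L2 ≤ L := ((le_max_right _ _).trans (le_max_left _ _)).trans hLL0
  have hLL3 : L3 ≤ L := ((le_max_left _ _).trans (le_max_right _ _)).trans hLL0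
  have hLL4 : log (8 * b + 8) ≤ L := ((le_max_right _ _).trans (le_max_right _ _)).trans hLL0
  have hLone : 1 ≤ L := hL1.trans hLL1
  have hs8 : (8 * b + 8 : ℝ) ≤ s := by
    have := Real.exp_le_exp.mpr hLL4
    rwa [hexpL, Real.exp_log (by positivity)] at this
  have hs8' : 8 * b + 8 ≤ s := by exact_mod_cast hs8
  -- definitions
  set X : ℝ := (s : ℝ) ^ a with hX
  have hX1 : 1 ≤ X := Real.one_le_rpow (by linarith) hapos.le
  have hlogX : log X = a * L := by rw [hX, Real.log_rpow hspos]
  set D := ⌈4 / δ * X⌉₊ with hD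
  have hDle : (D : ℝ) ≤ 4 / δ * X + 1 := (Nat.ceil_lt_add_one (by positivity)).le
  have hDge : 4 / δ * X ≤ D := Nat.le_ceil _
  have hDpos : 1 ≤ D := Nat.ceil_pos.mpr (by positivity)
  have hDR : (1 : ℝ) ≤ D := by exact_mod_cast hDpos
  have hlogD : log D ≤ a * L + c1 := by
    calc log D ≤ log ((4 / δ + 1) * X) := by
          apply Real.log_le_log (by linarith)
          nlinarith
      _ = a * L + c1 := by
          rw [Real.log_mul (by positivity) (by positivity), hlogX]; ring
  have hlogD1 : log (D + 1) ≤ a * L + c2 := by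
    calc log (D + 1) ≤ log ((4 / δ + 2) * X) := by
          apply Real.log_le_log (by linarith)
          nlinarith
      _ = a * L + c2 := by
          rw [Real.log_mul (by positivity) (by positivity), hlogX]; ring
  have hlogD0 : 0 ≤ log (D : ℝ) := Real.log_nonneg hDR
  have hlogD10 : 0 ≤ log ((D : ℝ) + 1) := Real.log_nonneg (by linarith)
  set m := s * (b - 1) / (2 * b) with hm
  set h := Nat.clog b s with hh
  set M := (D + 1) ^ h with hM
  set l := D * M + 1 with hl
  set k := (D + 1) * l with hk
  have hm1 : 2 * b * m ≤ s * (b - 1) := Nat.mul_div_le _ _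
  have hm2 : s * (b - 1) < 2 * b * m + 2 * b := by
    have := Nat.lt_mul_div_succ (s * (b - 1)) (show 0 < 2 * b by omega)
    rw [← hm] at this
    linarith [this]
  have hb1 : ((b - 1 : ℕ) : ℝ) = (b : ℝ) - 1 := by
    rw [Nat.cast_sub (by omega)]; simp
  have hm1R : 2 * (b : ℝ) * m ≤ s * (b - 1) := by
    have : ((2 * b * m : ℕ) : ℝ) ≤ ((s * (b - 1) : ℕ) : ℝ) := by exact_mod_cast hm1
    push_cast at this
    rw [hb1] at this
    exact this
  have hm2R : (s : ℝ) * (b - 1) ≤ 2 * b * m + 2 * b := by
    have : ((s * (b - 1) : ℕ) : ℝ) ≤ ((2 * b * m + 2 * b : ℕ) : ℝ) := by exact_mod_cast hm2.le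
    push_cast at this
    rw [hb1] at this
    exact this
  have h2m : 2 * m ≤ s := by
    have h1 : s * (b - 1) ≤ s * b := Nat.mul_le_mul_left s (by omega)
    have h2 : b * (2 * m) ≤ b * s := by nlinarith
    exact Nat.le_of_mul_le_mul_left h2 (by omega)
  have hbs : s ≤ b * (s - 2 * m) + 1 := by
    obtain ⟨t, ht⟩ := Nat.exists_eq_add_of_le h2m
    have h1 : s - 2 * m = t := by omega
    rw [h1]
    obtain ⟨b', rfl⟩ : ∃ b', b = b' + 1 := ⟨b - 1, by omega⟩
    simp only [Nat.add_sub_cancel] at hm1
    nlinarith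
  have hmge : (s : ℝ) / 8 ≤ m := by
    -- s (b-1) ≤ 2 b m + 2 b and b - 1 ≥ b / 2
    have h1 : (s : ℝ) * (b / 2) ≤ 2 * b * m + 2 * b := by nlinarith
    have h2 : (s : ℝ) / 2 ≤ 2 * m + 2 := by
      have hbpos : (0 : ℝ) < b := by linarith
      have : (b : ℝ) * (s / 2) ≤ b * (2 * m + 2) := by nlinarith
      exact le_of_mul_le_mul_left this hbpos
    linarith
  have hmpos : 1 ≤ m := by
    have : (0 : ℝ) < m := by
      have : (0 : ℝ) < s / 8 := by positivity
      linarith
    exact_mod_cast this
  have hmR : (0 : ℝ) < m := by exact_mod_cast hmpos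
  have hsh : s ≤ b ^ h := Nat.le_pow_clog (by omega) s
  have hhR : (h : ℝ) ≤ L / log b + 1 := by
    have h1 : 1 ≤ h := Nat.clog_pos (by omega) (by omega)
    have h2 : b ^ (h - 1) < s := by
      have := Nat.pow_pred_clog_lt_self (b := b) (by omega) (x := s) (by omega)
      simpa [hh] using this
    have h3 : ((b : ℝ)) ^ (h - 1) ≤ s := by exact_mod_cast h2.le
    have h4 := Real.log_le_log (by positivity) h3
    rw [Real.log_pow, Nat.cast_sub h1] at h4
    rw [← sub_le_iff_le_add, le_div_iff₀ hlb]
    simpa using h4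
  have hMR : (M : ℝ) = ((D : ℝ) + 1) ^ h := by rw [hM]; push_cast; rfl
  have hlogM : log M = h * log ((D : ℝ) + 1) := by rw [hMR, Real.log_pow]
  have hMpos : 1 ≤ M := Nat.one_le_pow _ _ (by omega)
  have hMposR : (1 : ℝ) ≤ M := by exact_mod_cast hMpos
  have hkR : (k : ℝ) ≤ ((D : ℝ) + 1) ^ 2 * M := by
    rw [hk, hl]; push_cast
    nlinarith
  have hkpos : 1 ≤ k := by
    rw [hk, hl]
    nlinarith
  have hkposR : (1 : ℝ) ≤ k := by exact_mod_cast hkpos
  have hlogk : log k ≤ (h + 2) * log ((D : ℝ) + 1) := by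
    calc log k ≤ log (((D : ℝ) + 1) ^ 2 * M) := Real.log_le_log (by linarith) hkR
      _ = (h + 2) * log ((D : ℝ) + 1) := by
          rw [Real.log_mul (by positivity) (by positivity), hlogM, Real.log_pow]
          push_cast; ring
  have hLb : 0 ≤ L / log b := by positivity
  have hlogMle : log M ≤ (L / log b + 1) * (a * L + c2) := by
    rw [hlogM]
    gcongr
  have hlogkle : log k ≤ (L / log b + 3) * (a * L + c2) := by
    refine hlogk.trans ?_
    have : (h : ℝ) + 2 ≤ L / log b + 3 := by linarith
    gcongr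
  refine ⟨m, D, M, h, k, l, h2m, hbs, by omega, hDpos, le_refl _, hsh, ?_, hkpos, ?_, rfl, ?_⟩
  · -- the main inequality
    have hmain : M * (k * (D ^ s * D ^ (b * m))) ≤ (m.factorial) ^ b := by
      have hpos1 : (0 : ℝ) < (M : ℝ) * (k * ((D : ℝ) ^ s * (D : ℝ) ^ (b * m))) := by positivity
      have hpos2 : (0 : ℝ) < ((m.factorial : ℕ) : ℝ) ^ b := by
        have : (0 : ℝ) < m.factorial := by exact_mod_cast m.factorial_pos
        positivity
      have hR : (M : ℝ) * (k * ((D : ℝ) ^ s * (D : ℝ) ^ (b * m))) ≤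
          ((m.factorial : ℕ) : ℝ) ^ b := by
        rw [← Real.log_le_log_iff hpos1 hpos2]
        rw [Real.log_mul (by positivity) (by positivity),
          Real.log_mul (by positivity) (by positivity),
          Real.log_mul (by positivity) (by positivity), Real.log_pow, Real.log_pow, Real.log_pow]
        push_cast
        -- lower bound of the factorial
        have hfac := log_factorial_ge m hmpos
        have hlogm : L - log 8 ≤ log m := by
          have := Real.log_le_log (by positivity) hmge
          rw [Real.log_div (by positivity) (by norm_num)] at this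
          exact this
        have hfac2 : (m : ℝ) * (L - log 8 - 1) ≤ log (m.factorial) := by nlinarith
        -- upper bound of s
        have hsle : (s : ℝ) + b * m ≤ b * m / θ + 4 := by
          have hb1pos : (0 : ℝ) < b - 1 := by linarith
          have e1 : (b : ℝ) * m / θ = b * m * (b + 1) / (b - 1) := by
            rw [hθ]; field_simp
          rw [e1, ← sub_le_iff_le_add, le_div_iff₀ hb1pos]
          nlinarith
        have hstep : ((s : ℝ) + b * m) * log D ≤ (b * m / θ + 4) * (a * L + c1) := by
          have : 0 ≤ (b : ℝ) * m / θ + 4 := by positivity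
          gcongr
        -- bracket
        have hbr : 1 ≤ (γ / θ) * L - log 8 - 1 - c1 / θ := by
          have h1 : (log 8 + 1 + c1 / θ + 1) ≤ γ / θ * L := by
            have := hLL2
            rw [hL2, div_le_iff₀ hγ] at this
            rw [div_mul_eq_mul_div, le_div_iff₀ hθpos]
            linarith
          linarith
        have hbm : (s : ℝ) / 4 ≤ b * m := by nlinarith
        have hexp := hE L hLL1
        rw [hexpL] at hexp
        have hQ : log M + log k + 4 * (a * L + c1) ≤ s / 4 := by
          have h1 : log M + log k ≤ (2 * (L / log b) + 4) * (a * L + c2) := by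
            have := add_le_add hlogMle hlogkle
            linarith [this]
          have h2 : 4 * ((2 * (L / log b) + 4) * (a * L + c2) + 4 * (a * L + c1)) =
              4 * (2 / log b * a) * L ^ 2 + 4 * (2 / log b * c2 + 4 * a + 4 * a) * L +
                4 * (4 * c2 + 4 * c1) := by
            ring
          linarith
        -- assemble
        have haθ : a / θ = 1 - γ / θ := by rw [ha]; field_simp
        have e2 : (b : ℝ) * m / θ * (a * L + c1) = b * m * ((1 - γ / θ) * L + c1 / θ) := by
          rw [← haθ]; ring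
        have e3 : (b : ℝ) * m * 1 ≤ b * m * ((γ / θ) * L - log 8 - 1 - c1 / θ) := by
          have : (0 : ℝ) ≤ b * m := by positivity
          exact mul_le_mul_of_nonneg_left hbr this
        have e4 : (b : ℝ) * (m * (L - log 8 - 1)) ≤ b * log (m.factorial) := by
          have : (0 : ℝ) ≤ b := by linarith
          exact mul_le_mul_of_nonneg_left hfac2 this
        have e5 : log (M : ℝ) + (log k + (s * log D + b * m * log D)) =
            log M + log k + ((s : ℝ) + b * m) * log D := by ring
        rw [e5]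
        calc log (M : ℝ) + log k + ((s : ℝ) + b * m) * log D
            ≤ log M + log k + (b * m / θ + 4) * (a * L + c1) := by linarith
          _ = log M + log k + 4 * (a * L + c1) + b * m * ((1 - γ / θ) * L + c1 / θ) := by
              rw [← e2]; ring
          _ ≤ s / 4 + b * m * ((1 - γ / θ) * L + c1 / θ) := by linarith
          _ ≤ b * (m * (L - log 8 - 1)) := by nlinarith
          _ ≤ b * log (m.factorial) := e4
      exact_mod_cast hR
    have hMtwo : 2 ≤ M := by
      have h1 : 1 ≤ h := Nat.clog_pos (by omega) (by omega)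
      calc 2 ≤ D + 1 := by omega
        _ = (D + 1) ^ 1 := (pow_one _).symm
        _ ≤ (D + 1) ^ h := Nat.pow_le_pow_right (by omega) h1
    have hkP : 0 < k * (D ^ s * D ^ (b * m)) := by positivity
    have hMl : M ^ (D * M) * M = M ^ l := by rw [hl, pow_succ]
    calc M ^ (D * M) * M * (k * (D ^ s * D ^ (b * m))) ^ (l + 1)
        = M ^ l * (k * (D ^ s * D ^ (b * m))) ^ (l + 1) := by rw [hMl]
      _ < M ^ (l + 1) * (k * (D ^ s * D ^ (b * m))) ^ (l + 1) := by
          apply Nat.mul_lt_mul_of_pos_right _ (pow_pos hkP _)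
          exact Nat.pow_lt_pow_right (by omega) (by omega)
      _ = (M * (k * (D ^ s * D ^ (b * m)))) ^ (l + 1) := (mul_pow _ _ _).symm
      _ ≤ ((m.factorial) ^ b) ^ (l + 1) := Nat.pow_le_pow_left hmain _
  · -- k s ≤ n
    have hnpos : 0 < n := by
      rcases Nat.eq_zero_or_pos n with rfl | h0
      · exfalso
        simp at hn
        have : 0 < θ * L ^ 2 := by positivity
        linarith
      · exact h0
    have hnR : (0 : ℝ) < n := by exact_mod_cast hnpos
    have h1 : log ((k : ℝ) * s) ≤ log n := by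
      rw [Real.log_mul (by positivity) (by positivity)]
      have h2 : log k + L ≤ θ / log b * L ^ 2 := by
        have h3 : (L / log b + 3) * (a * L + c2) + L ≤ θ / log b * L ^ 2 := by
          have h4 : (c2 / log b + 3 * a + 1 + 3 * c2) ≤ γ / log b * L := by
            have h5 : (c2 / log b + 3 * a + 1 + 3 * c2) * log b / γ ≤ L := by
              have := hLL3
              rw [hL3] at this
              linarith
            rw [div_le_iff₀ hγ] at h5
            rw [div_mul_eq_mul_div, le_div_iff₀ hlb]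
            linarith
          have h6 : (c2 / log b + 3 * a + 1 + 3 * c2) * L ≤ γ / log b * L * L := by
            have : 0 ≤ L := by linarith
            exact mul_le_mul_of_nonneg_right h4 this
          have h7 : 3 * c2 ≤ 3 * c2 * L := by nlinarith
          have e1 : (L / log b + 3) * (a * L + c2) + L =
              a / log b * L ^ 2 + (c2 / log b + 3 * a + 1) * L + 3 * c2 := by ring
          have e2 : θ / log b * L ^ 2 = a / log b * L ^ 2 + γ / log b * L * L := by
            rw [ha]; ring
          rw [e1, e2]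
          nlinarith
        linarith
      have h8 : θ / log b * L ^ 2 ≤ log n := by
        rw [div_mul_eq_mul_div, div_le_iff₀ hlb]
        linarith
      linarith
    have h2 : (k : ℝ) * s ≤ n := (Real.log_le_log_iff (by positivity) hnR).mp h1
    exact_mod_cast h2
  · linarith

end Pool.Agent.SRC
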